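import Mathlib
import Pool.Agent.Q21.SS.Main

set_option autoImplicit false

namespace Pool.Agent.Results.MP_9e467c_al.FiniteIndexMaximal

open Equiv

section defs

variable {X : Type}

/-- Automorphisms of the rooted tree whose vertices are the words over `X` (the root is the empty
word, and `v` lies above `w` exactly when `v` is an initial segment of `w`): the permutations of
the vertices that preserve this order in both directions. -/
def IsTreeAut (g : Perm (List X)) : Prop := ∀ v w : List X, v <+: w ↔ g v <+: g w

/-- The rigid vertex stabiliser of `v` in `G`: the elements of `G` that fix every vertex of the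
layer of `v` and act trivially on every subtree rooted at a vertex `u ≠ v` of that layer. -/
def rist (G : Subgroup (Perm (List X))) (v : List X) : Set (Perm (List X)) :=
  {g | g ∈ G ∧ (∀ u : List X, u.length = v.length → g u = u) ∧
    ∀ u w : List X, u.length = v.length → u ≠ v → g (u ++ w) = u ++ w}

/-- The `n`-th rigid layer stabiliser: the subgroup generated by the rigid stabilisers of the
vertices of the `n`-th layer. -/
def Rist (G : Subgroup (Perm (List X))) (n : ℕ) : Subgroup (Perm (List X)) :=
  Subgroup.closure {g | ∃ v : List X, v.length = n ∧ g ∈ rist G v}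

/-- `G` is a branch group with respect to its action on the tree of words over `X`: it acts by
tree automorphisms, transitively on every layer, and every rigid layer stabiliser has finite
index in `G`. -/
structure IsBranch (G : Subgroup (Perm (List X))) : Prop where
  aut : ∀ g ∈ G, IsTreeAut g
  trans : ∀ v w : List X, v.length = w.length → ∃ g ∈ G, g v = w
  rigid : ∀ n : ℕ, (Rist G n).relIndex G ≠ 0

/-- `M` is a maximal subgroup of `G`. -/
def IsMaximalIn (M G : Subgroup (Perm (List X))) : Prop :=
  M < G ∧ ∀ L : Subgroup (Perm (List X)), M < L → L ≤ G → L = G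

end defs

open Q21.SS Q21.SS.Ex in
theorem isBranch_of_reg {Γ : Subgroup (Perm (List (ZMod 5)))} (h : Reg Γ 0) : IsBranch Γ where
  aut g hg := h.ss.isAut hg
  trans := h.transitive
  rigid n := by
    have h1 : K Γ n ≤ Rist Γ n := by
      refine (K_le n).trans ?_
      rw [Subgroup.closure_le]
      rintro _ ⟨v, c, hv, hc, rfl⟩
      have hmem : at_ v c ∈ Γ := comm_le Γ (h.at_mem v hc)
      refine Subgroup.subset_closure ⟨v, hv, hmem, fun u hu => ?_, fun u w hu hne => ?_⟩
      · by_cases hvu : v <+: u
        · have : v = u := hvu.eq_of_length hu.symm
          subst this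
          have h2 := at_apply_append v c []
          have h3 : c [] = [] := List.length_eq_zero_iff.1 (h.ss.length (comm_le Γ hc) [])
          rwa [h3, List.append_nil] at h2
        · exact at_apply_of_not v c u hvu
      · apply at_apply_of_not
        intro hvu
        apply hne
        have h2 := List.prefix_of_prefix_length_le hvu (List.prefix_append u w) hu.ge
        exact (h2.eq_of_length hu.symm).symm
    exact fun h0 => K_relIndex h.ss h.ab n (Subgroup.relIndex_eq_zero_of_le_left h1 h0)

open Q21.SS Q21.SS.Ex in
/-- There are a finitely generated branch group `G` (acting on the `5`-regular rooted tree) and a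
branch subgroup `H` of `G` (with respect to the same tree) of infinite index such that every
maximal subgroup of `G` containing `H` has finite index in `G`. -/
theorem result :
    ∃ G H : Subgroup (Perm (List (ZMod 5))), G.FG ∧ IsBranch G ∧ IsBranch H ∧ H ≤ G ∧
      H.relIndex G = 0 ∧ ∀ M : Subgroup (Perm (List (ZMod 5))),
        IsMaximalIn M G → H ≤ M → M.relIndex G ≠ 0 := by
  refine ⟨GG, GH, ?_, isBranch_of_reg regG, isBranch_of_reg regH, GH_le, relIndex_eq_zero, ?_⟩
  · rw [Subgroup.fg_iff]
    exact ⟨_, rfl, Set.toFinite _⟩
  · rintro M ⟨hlt, hmax⟩ hHM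
    by_cases hle : ⁅GG, GG⁆ ≤ M
    · exact fun h0 => ab (Subgroup.relIndex_eq_zero_of_le_left hle h0)
    · refine finite_index M hHM ?_ hlt.le
      have h1 : M ⊔ ⁅GG, GG⁆ = GG := by
        refine hmax _ ?_ (sup_le hlt.le (comm_le GG))
        refine lt_of_le_of_ne le_sup_left fun h => hle ?_
        rw [h]
        exact le_sup_right
      rw [h1]
      exact b_mem (AddSubgroup.mem_top _)

end Pool.Agent.Results.MP_9e467c_al.FiniteIndexMaximal
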